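import Pool.Agent.Helper57.KNC.NB2
import Pool.Agent.Helper57.KNB.KN6

/-!
B tests with a sharp bound of the modulus: soundness of the arithmetic.
-/

set_option autoImplicit false
noncomputable section
namespace Pool.Agent.Helper57.KNC

open Pool.Agent.Helper86.C75 (Z)
open Pool.Agent.Helper86.CX (Hm)
open Pool.Agent.Helper90.C75
open Pool.Agent.Helper90.KMO
open Pool.Agent.Helper57.KNB (Ar ArS)

variable {M PH : Type} {R : Ar M PH} {OK : ℂ → M → Prop} {HK : Hm ℝ → PH → Prop}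

/-- a Newton step keeps upper bounds -/
theorem nwS_ge {s : ℝ} {n a : ℕ} (h0 : 0 ≤ s) (ha : s ≤ a) (hn : s ^ 2 ≤ n) : s ≤ (nwS n a : ℕ) := by
  have e : nwS n a = (a + n / a) / 2 + 1 := rfl
  rcases Nat.eq_zero_or_pos a with h | h
  · rw [h, Nat.cast_zero] at ha
    have : s = 0 := le_antisymm ha h0
    rw [this]
    exact Nat.cast_nonneg _
  · have h1 : n < (n / a + 1) * a := by
      have := Nat.lt_div_mul_add (a := n) (b := a) h
      linarith [Nat.add_mul (n / a) 1 a]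
    have h2 : a + n / a < ((a + n / a) / 2 + 1) * 2 := by omega
    have h1' : (n : ℝ) < ((n / a : ℕ) + 1) * a := by exact_mod_cast h1
    have h2' : (a : ℝ) + (n / a : ℕ) + 1 ≤ (((a + n / a) / 2 + 1 : ℕ) : ℝ) * 2 := by
      have : a + n / a + 1 ≤ ((a + n / a) / 2 + 1) * 2 := h2
      exact_mod_cast this
    have ap : (0 : ℝ) < a := by exact_mod_cast h
    rw [e]
    -- `2 s a ≤ s² + a² < (n / a + 1) a + a²`
    have h3 : 2 * s * a ≤ ((n / a : ℕ) + 1 + a) * a := by nlinarith [sq_nonneg (s - a)]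
    have h4 : 2 * s ≤ ((n / a : ℕ) : ℝ) + 1 + a := le_of_mul_le_mul_right h3 ap
    linarith

theorem nwS4_ge {s : ℝ} {n a : ℕ} (h0 : 0 ≤ s) (ha : s ≤ a) (hn : s ^ 2 ≤ n) :
    s ≤ (nwS4 n a : ℕ) :=
  nwS_ge h0 (nwS_ge h0 (nwS_ge h0 (nwS_ge h0 ha hn) hn) hn) hn

theorem minB_ge {s : ℝ} {a b : ℕ} (ha : s ≤ a) (hb : s ≤ b) : s ≤ (minB a b : ℕ) := by
  unfold minB
  cases Nat.ble a b with
  | false => exact hb
  | true => exact ha

theorem nbm_ge {s : ℝ} {a b : ℕ} (h0 : 0 ≤ s) (ha : s ≤ a)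
    (hb : s ^ 2 ≤ b * 281474976710656) : s ≤ (nbm a b : ℕ) := by
  refine minB_ge ha (nwS4_ge h0 ha ?_)
  have e : Nat.mul b (nat_lit 281474976710656) = b * 281474976710656 := rfl
  rw [e]
  push_cast
  exact hb

theorem nb2_ok (hR : ArS R OK HK) {f : ℂ} {x : M} (h : OK f x) : ‖f‖ * UU ≤ nb2 R x := by
  have hU := UU_pos
  have h1 := hR.nb h
  have h2 := hR.nb (hR.mul h (hR.cj h))
  refine nbm_ge (by positivity) h1 ?_
  have h3 : ‖f * star f‖ = ‖f‖ ^ 2 := by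
    rw [norm_mul, norm_star, sq]
  rw [h3] at h2
  have hUU : (UU : ℝ) = 281474976710656 := by unfold UU; norm_num
  calc (‖f‖ * UU) ^ 2 = ‖f‖ ^ 2 * UU * UU := by ring
    _ ≤ (R.nb (R.mul x (R.cj x)) : ℝ) * UU := mul_le_mul_of_nonneg_right h2 hU.le
    _ = _ := by rw [hUU]

/-- THE ARITHMETIC WITH THE SHARP BOUND IS SOUND -/
theorem arN_sound (hR : ArS R OK HK) : ArS (arN R) OK HK :=
  { add := hR.add
    sub := hR.sub
    mul := hR.mul
    cj := hR.cj
    re := hR.re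
    im := hR.im
    inv := hR.inv
    cs := hR.cs
    wd := hR.wd
    nb := nb2_ok hR
    ctl := hR.ctl
    dot := hR.dot
    pk := hR.pk
    lt := hR.lt }

end Pool.Agent.Helper57.KNC
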