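import Pool.Agent.Helper57.KNK.PK4
import Pool.Agent.Helper57.KNC.NB3

/-!
The B tests of near cells with the sharp bound of the modulus: packed machines of depth 1 to 4.
-/

set_option autoImplicit false
noncomputable section
namespace Pool.Agent.Helper57.KNC

open Pool.Agent.Helper86.CT (Mo Mc Vx Pr)
open Pool.Agent.Helper86.CK
open Pool.Agent.Helper90.C75 (Vt)
open Pool.Agent.Helper90.KMT (TOK PT AOK UOK TLW mf0 nmf)
open Pool.Agent.Helper57.KNB (HOK ArS chBN chBN_ok BXT BXOK chBNs VLw)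
open Pool.Agent.Helper57.KNK (arK arK_sound)

variable {D : ℕ} {β p v γ : Type} {C : LC}

/-- THE B TESTS OF A NEAR CELL with the sharp bound of the modulus -/
def chBQ (hC : C = CC D ∧ D ≤ 4) (K : Mc (PA D) β p v γ) (V : Vx β) : BXT (PA D) β :=
  chBN K V (arN (arK hC)) (fun x => x)

/-- one orientation -/
def chBQs (s : Bool) (hC : C = CC D ∧ D ≤ 4) (K : Mc (PA D) β p v γ) (V : Vx β) : BXT (PA D) β :=
  chBNs s K V (arN (arK hC)) (fun x => x)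

variable {mf : (ℕ → ℝ) → β → (ℕ → ℝ) → ℝ}

theorem chBQ_ok (hC : C = CC D ∧ D ≤ 4) {K : Mc (PA D) β p v γ} {V : Vx β}
    (hA : AOK D lfK K.A) (hU : UOK D lfK mf K.U) (hw : K.w * 2 ^ D = 2 ^ 28) (hV : VLw D mf V)
    (hT : TLW D lfK K.T) : BXOK D lfK mf (chBQ hC K V) :=
  chBN_ok hA hU hw hV hT fun {t} hP =>
    ⟨TOK D lfK t, HOK (TOK D lfK t), arN_sound (arK_sound hC hP), fun h => h⟩

def chB1q : BXT (PA 1) (Pr Nat) := chBQ hC1 K1 Pool.Agent.Helper86.CT.W1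
def chB2q : BXT (PA 2) (Pr (Pr Nat)) := chBQ hC2 K2 Pool.Agent.Helper86.CT.W2
def chB3q : BXT (PA 3) (Pr (Pr (Pr Nat))) := chBQ hC3 K3 Pool.Agent.Helper86.CT.W3
def chB4q : BXT (PA 4) (Pr (Pr (Pr (Pr Nat)))) := chBQ hC4 K4 Pool.Agent.Helper86.CT.W4
/-- one orientation -/
def chB1qs (s : Bool) : BXT (PA 1) (Pr Nat) := chBQs s hC1 K1 Pool.Agent.Helper86.CT.W1
def chB2qs (s : Bool) : BXT (PA 2) (Pr (Pr Nat)) := chBQs s hC2 K2 Pool.Agent.Helper86.CT.W2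
def chB3qs (s : Bool) : BXT (PA 3) (Pr (Pr (Pr Nat))) := chBQs s hC3 K3 Pool.Agent.Helper86.CT.W3
def chB4qs (s : Bool) : BXT (PA 4) (Pr (Pr (Pr (Pr Nat)))) :=
  chBQs s hC4 K4 Pool.Agent.Helper86.CT.W4

theorem chB1q_ok : BXOK 1 lfK (nmf 0 mf0) chB1q :=
  chBQ_ok hC1 (AOKK hC1) UK1 (by decide) Pool.Agent.Helper57.KNB.W1_law (TLWK hC1)
theorem chB2q_ok : BXOK 2 lfK (nmf 1 (nmf 0 mf0)) chB2q :=
  chBQ_ok hC2 (AOKK hC2) UK2 (by decide) Pool.Agent.Helper57.KNB.W2_law (TLWK hC2)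
theorem chB3q_ok : BXOK 3 lfK (nmf 2 (nmf 1 (nmf 0 mf0))) chB3q :=
  chBQ_ok hC3 (AOKK hC3) UK3 (by decide) Pool.Agent.Helper57.KNB.W3_law (TLWK hC3)
theorem chB4q_ok : BXOK 4 lfK (nmf 3 (nmf 2 (nmf 1 (nmf 0 mf0)))) chB4q :=
  chBQ_ok hC4 (AOKK hC4) UK4 (by decide) Pool.Agent.Helper57.KNB.W4_law (TLWK hC4)

end Pool.Agent.Helper57.KNC
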