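import Pool.Agent.Helper57.KNK.PK4
import Pool.Agent.Helper57.KNC.NB3

/-!
The A families of near cells with the sharp bound of the modulus: packed machines of depth 1 to 4.
-/

set_option autoImplicit false
noncomputable section
namespace Pool.Agent.Helper57.KNC

open Pool.Agent.Helper86.CT (Mo Mc Vx Pr)
open Pool.Agent.Helper86.CK
open Pool.Agent.Helper90.C75 (Vt)
open Pool.Agent.Helper90.KMT (TOK PT AOK UOK TLW mf0 nmf)
open Pool.Agent.Helper57.KNB (HOK ArS famR famR_ok FamTOK VLw FDT)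
open Pool.Agent.Helper57.KNK (arK arK_sound)

variable {D : ℕ} {β p v γ : Type} {C : LC}

/-- THE TEST OF THE A FAMILY OF ONE WALL with the sharp bound of the modulus -/
def famQ (hC : C = CC D ∧ D ≤ 4) (K : Mc (PA D) β p v γ) (V : Vx β) (KT : β) (Q : FDT β)
    (l k k' u z : Mo (PA D)) : Bool :=
  famR K V (arN (arK hC)) (fun x => x) KT Q l k k' u z

variable {mf : (ℕ → ℝ) → β → (ℕ → ℝ) → ℝ}

theorem famQ_ok (hC : C = CC D ∧ D ≤ 4) {K : Mc (PA D) β p v γ} {V : Vx β}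
    (hA : AOK D lfK K.A) (hU : UOK D lfK mf K.U) (hw : K.w * 2 ^ D = 2 ^ 28) (hV : VLw D mf V) :
    FamTOK D lfK mf (famQ hC K V) :=
  famR_ok hA hU hw hV fun {t} hP =>
    ⟨TOK D lfK t, HOK (TOK D lfK t), arN_sound (arK_sound hC hP), fun h => h⟩

def fam1q : Pr Nat → FDT (Pr Nat) → Mo (PA 1) → Mo (PA 1) → Mo (PA 1) → Mo (PA 1) → Mo (PA 1) →
    Bool :=
  famQ hC1 K1 Pool.Agent.Helper86.CT.W1
def fam2q : Pr (Pr Nat) → FDT (Pr (Pr Nat)) → Mo (PA 2) → Mo (PA 2) → Mo (PA 2) → Mo (PA 2) →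
    Mo (PA 2) → Bool :=
  famQ hC2 K2 Pool.Agent.Helper86.CT.W2
def fam3q : Pr (Pr (Pr Nat)) → FDT (Pr (Pr (Pr Nat))) → Mo (PA 3) → Mo (PA 3) → Mo (PA 3) →
    Mo (PA 3) → Mo (PA 3) → Bool :=
  famQ hC3 K3 Pool.Agent.Helper86.CT.W3
def fam4q : Pr (Pr (Pr (Pr Nat))) → FDT (Pr (Pr (Pr (Pr Nat)))) → Mo (PA 4) → Mo (PA 4) →
    Mo (PA 4) → Mo (PA 4) → Mo (PA 4) → Bool :=
  famQ hC4 K4 Pool.Agent.Helper86.CT.W4

theorem fam1q_ok : FamTOK 1 lfK (nmf 0 mf0) fam1q :=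
  famQ_ok hC1 (AOKK hC1) UK1 (by decide) Pool.Agent.Helper57.KNB.W1_law
theorem fam2q_ok : FamTOK 2 lfK (nmf 1 (nmf 0 mf0)) fam2q :=
  famQ_ok hC2 (AOKK hC2) UK2 (by decide) Pool.Agent.Helper57.KNB.W2_law
theorem fam3q_ok : FamTOK 3 lfK (nmf 2 (nmf 1 (nmf 0 mf0))) fam3q :=
  famQ_ok hC3 (AOKK hC3) UK3 (by decide) Pool.Agent.Helper57.KNB.W3_law
theorem fam4q_ok : FamTOK 4 lfK (nmf 3 (nmf 2 (nmf 1 (nmf 0 mf0)))) fam4q :=
  famQ_ok hC4 (AOKK hC4) UK4 (by decide) Pool.Agent.Helper57.KNB.W4_law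

end Pool.Agent.Helper57.KNC
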