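import Pool.Agent.Helper57.KNB.KN4

/-!
B tests with a sharp bound of the modulus: `|f|` is bounded by the root of the bound of `f` times
its conjugate. Kernel side.
-/

set_option autoImplicit false
noncomputable section
namespace Pool.Agent.Helper57.KNC

open Pool.Agent.Helper57.KNB (Ar)

variable {M PH : Type}

/-- a Newton step for the root of `n` -/
def nwS (n a : Nat) : Nat :=
  Nat.add (Nat.div (Nat.add a (Nat.div n a)) (nat_lit 2)) (nat_lit 1)
/-- four Newton steps from `a` -/
def nwS4 (n a : Nat) : Nat := nwS n (nwS n (nwS n (nwS n a)))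
def minB (a b : Nat) : Nat := Bool.rec (motive := fun _ => Nat) b a (Nat.ble a b)
/-- `a` a bound of the modulus, `b` a bound of its square, unit `2 ^ (-48)` -/
def nbm (a b : Nat) : Nat := minB a (nwS4 (Nat.mul b (nat_lit 281474976710656)) a)
/-- the sharp bound of the modulus -/
def nb2 (R : Ar M PH) (x : M) : Nat := nbm (R.nb x) (R.nb (R.mul x (R.cj x)))
/-- the arithmetic with the sharp bound -/
def arN (R : Ar M PH) : Ar M PH := { R with nb := nb2 R }

end Pool.Agent.Helper57.KNC
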