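import Pool.Agent.Helper57.KNC.NB3
import Pool.Agent.Helper57.KNB.KC7

/-!
The B tests of near cells with the sharp bound of the modulus: unpacked machine.
-/

set_option autoImplicit false
noncomputable section
namespace Pool.Agent.Helper57.KNC

open Pool.Agent.Helper86.CT (Mo Mc Vx Pr Cls)
open Pool.Agent.Helper90.KMT (TOK PT AOK UOK TLW mf0 nmf nlf lf0)
open Pool.Agent.Helper57.KNB (HOK ArS chBN chBN_ok BXT BXOK VLw Lw LwOK arT arT_sound)

section

variable {α β p v γ : Type} {D : ℕ} {lf : α → Pool.Agent.Helper90.C75.Vt D → ℂ}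
  {mf : (ℕ → ℝ) → β → (ℕ → ℝ) → ℝ}

/-- unpacked -/
def chBNUq (K : Mc α β p v γ) (V : Vx β) (W : Lw α) : BXT α β :=
  chBN K V (arN (arT K.A W)) (fun x => x)

theorem chBNUq_ok {K : Mc α β p v γ} {V : Vx β} {W : Lw α} (hA : AOK D lf K.A)
    (hU : UOK D lf mf K.U) (hw : K.w * 2 ^ D = 2 ^ 28) (hV : VLw D mf V) (hT : TLW D lf K.T)
    (hW : LwOK D lf W) : BXOK D lf mf (chBNUq K V W) :=
  chBN_ok hA hU hw hV hT fun {t} hP =>
    ⟨TOK D lf t, HOK (TOK D lf t), arN_sound (arT_sound hA hW hP), fun h => h⟩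

end

open Pool.Agent.Helper90.KMT in
/-- the B test of `KerT`, no tail -/
theorem chBNUq1_ok : BXOK 1 (nlf lf0) (nmf 0 mf0)
    (chBNUq Pool.Agent.Helper86.CT.K1 Pool.Agent.Helper86.CT.W1 Pool.Agent.Helper57.KNB.Lw1) :=
  chBNUq_ok A1_ok U1_ok (by decide) Pool.Agent.Helper57.KNB.W1_law T1_ok
    Pool.Agent.Helper57.KNB.Lw1_ok

end Pool.Agent.Helper57.KNC
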