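import Pool.Agent.Helper57.KNC.PK5
import Pool.Agent.Helper57.KNC.PU
import Pool.Agent.Helper84.XL.N
import Pool.Agent.Helper84.SPL.P
import Pool.Agent.Helper39.CT.NFH

/-!
The B tests of near cells with the sharp bound of the modulus: any line, parts.
-/

set_option autoImplicit false
noncomputable section
namespace Pool.Agent.Helper57.KNC

open Pool.Agent.Helper86.CT (Mo Mc Vx Pr Cls)
open Pool.Agent.Helper86.CK
open Pool.Agent.Helper90.KMT (TOK PT AOK UOK TLW mf0 nmf nlf lf0)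
open Pool.Agent.Helper57.KNB (HOK ArS chBN chBN_ok BXT BXOK chBNs chBNo VLw NBT bCT_of Lw LwOK arT
  arT_sound W1_law W2_law W3_law W4_law)
open Pool.Agent.Helper57.KNK (arK arK_sound)
open Pool.Agent.Helper84.XL (BXON nbX nbX_ok)
open Pool.Agent.Helper84.SPL (tB)

/-- any line, no border cell -/
theorem nb1q_ok : BXON 1 lfK (nmf 0 mf0) (nbX chB1q) :=
  nbX_ok (AOKK _) UK1 (by decide) W1_law fun {t} hP =>
    ⟨TOK 1 lfK t, HOK (TOK 1 lfK t), arN_sound (arK_sound _ hP), fun h => h⟩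
theorem nb2q_ok : BXON 2 lfK (nmf 1 (nmf 0 mf0)) (nbX chB2q) :=
  nbX_ok (AOKK _) UK2 (by decide) W2_law fun {t} hP =>
    ⟨TOK 2 lfK t, HOK (TOK 2 lfK t), arN_sound (arK_sound _ hP), fun h => h⟩
theorem nb3q_ok : BXON 3 lfK (nmf 2 (nmf 1 (nmf 0 mf0))) (nbX chB3q) :=
  nbX_ok (AOKK _) UK3 (by decide) W3_law fun {t} hP =>
    ⟨TOK 3 lfK t, HOK (TOK 3 lfK t), arN_sound (arK_sound _ hP), fun h => h⟩
theorem nb4q_ok : BXON 4 lfK (nmf 3 (nmf 2 (nmf 1 (nmf 0 mf0)))) (nbX chB4q) :=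
  nbX_ok (AOKK _) UK4 (by decide) W4_law fun {t} hP =>
    ⟨TOK 4 lfK t, HOK (TOK 4 lfK t), arN_sound (arK_sound _ hP), fun h => h⟩

section

variable {δ p v γ : Type}

/-- from the parts -/
theorem tB1q_of {M : Mc (PA 1) (Pr Nat) p v γ} {y : Nat → Nat → PA 1} {k0 k1 k2 : Mo (PA 1)}
    {C : Cls (PA 1)} {x0 : Mo (PA 1)} {d : NBT (PA 1) (Pr Nat) δ}
    (h0 : tB M y (chBNo Pool.Agent.Helper86.CK.K1) k0 k1 k2 C x0 d = true)
    (h : tB M y (chB1qs false) k0 k1 k2 C x0 d = true)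
    (h' : tB M y (chB1qs true) k0 k1 k2 C x0 d = true) :
    tB M y chB1q k0 k1 k2 C x0 d = true := bCT_of h0 h h'

theorem tB2q_of {M : Mc (PA 2) (Pr (Pr Nat)) p v γ} {y : Nat → Nat → PA 2} {k0 k1 k2 : Mo (PA 2)}
    {C : Cls (PA 2)} {x0 : Mo (PA 2)} {d : NBT (PA 2) (Pr (Pr Nat)) δ}
    (h0 : tB M y (chBNo Pool.Agent.Helper86.CK.K2) k0 k1 k2 C x0 d = true)
    (h : tB M y (chB2qs false) k0 k1 k2 C x0 d = true)
    (h' : tB M y (chB2qs true) k0 k1 k2 C x0 d = true) :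
    tB M y chB2q k0 k1 k2 C x0 d = true := bCT_of h0 h h'

theorem tB3q_of {M : Mc (PA 3) (Pr (Pr (Pr Nat))) p v γ} {y : Nat → Nat → PA 3}
    {k0 k1 k2 : Mo (PA 3)} {C : Cls (PA 3)} {x0 : Mo (PA 3)}
    {d : NBT (PA 3) (Pr (Pr (Pr Nat))) δ}
    (h0 : tB M y (chBNo Pool.Agent.Helper86.CK.K3) k0 k1 k2 C x0 d = true)
    (h : tB M y (chB3qs false) k0 k1 k2 C x0 d = true)
    (h' : tB M y (chB3qs true) k0 k1 k2 C x0 d = true) :
    tB M y chB3q k0 k1 k2 C x0 d = true := bCT_of h0 h h'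

theorem tB4q_of {M : Mc (PA 4) (Pr (Pr (Pr (Pr Nat)))) p v γ} {y : Nat → Nat → PA 4}
    {k0 k1 k2 : Mo (PA 4)} {C : Cls (PA 4)} {x0 : Mo (PA 4)}
    {d : NBT (PA 4) (Pr (Pr (Pr (Pr Nat)))) δ}
    (h0 : tB M y (chBNo Pool.Agent.Helper86.CK.K4) k0 k1 k2 C x0 d = true)
    (h : tB M y (chB4qs false) k0 k1 k2 C x0 d = true)
    (h' : tB M y (chB4qs true) k0 k1 k2 C x0 d = true) :
    tB M y chB4q k0 k1 k2 C x0 d = true := bCT_of h0 h h'

end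

end Pool.Agent.Helper57.KNC
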